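import Pool.Agent.J6H17.RF.Stm

/-! Project RF, module RF-NUM: numerals are computable in polynomial time. -/

set_option autoImplicit false

namespace Pool.Agent.J6H42.RF

open Pool.Agent Pool.Agent.NPC Pool.Agent.H628R3.RO Pool.Agent.J6H17.RF

lemma poly_succ {α : Type} [TEnc α] {t : α → Tm} (ht : Poly t) : Poly (fun a => Tm.succ (t a)) :=
  NPC.Poly.of_toT (NPC.Poly.node (NPC.Poly.const (toT (2 : ℕ))) ht.toT')

lemma poly_mul {α : Type} [TEnc α] {s t : α → Tm} (hs : Poly s) (ht : Poly t) :
    Poly (fun a => Tm.mul (s a) (t a)) :=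
  NPC.Poly.of_toT (NPC.Poly.node (NPC.Poly.const (toT (6 : ℕ))) (NPC.Poly.node hs.toT' ht.toT'))

lemma sz_succ (t : Tm) : sz (Tm.succ t) = sz (2 : ℕ) + sz t + 1 := by
  show (T.node (toT (2 : ℕ)) (toT t)).size = _
  simp [sz]

lemma sz_mul (s t : Tm) : sz (Tm.mul s t) = sz (6 : ℕ) + (sz s + sz t + 1) + 1 := by
  show (T.node (toT (6 : ℕ)) (T.node (toT s) (toT t))).size = _
  simp [sz]

lemma sz_foldr (l : List Bool) :
    sz (l.foldr (fun b t => if b then Tm.succ (.mul two t) else .mul two t) Tm.zero) ≤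
      l.length * (sz (2 : ℕ) + sz (6 : ℕ) + sz two + 3) + 1 := by
  induction l with
  | nil =>
    show (T.nil).size ≤ _
    simp
  | cons b l ih =>
    rw [List.foldr_cons, List.length_cons, Nat.add_mul, Nat.one_mul]
    split_ifs
    · rw [sz_succ, sz_mul]
      omega
    · rw [sz_mul]
      omega

lemma poly_num : Poly (fun n : ℕ => num n) := by
  refine NPC.Poly.foldr (l := fun n : ℕ => n.bits) (s := fun _ => Tm.zero)
    (F := fun _ b t => if b then Tm.succ (.mul two t) else .mul two t)
    (NPC.Poly.natBits NPC.Poly.id) (NPC.Poly.const _) ?_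
    (Polynomial.X * Polynomial.C (sz (2 : ℕ) + sz (6 : ℕ) + sz two + 3) + Polynomial.C 1) ?_
  · exact NPC.Poly.ite (p := fun p : ℕ × Bool × Tm => p.2.1 = true)
      (NPC.Poly.decide_bool (NPC.Poly.fst (NPC.Poly.snd NPC.Poly.id)))
      (poly_succ (poly_mul (NPC.Poly.const two) (NPC.Poly.snd (NPC.Poly.snd NPC.Poly.id))))
      (poly_mul (NPC.Poly.const two) (NPC.Poly.snd (NPC.Poly.snd NPC.Poly.id)))
  · intro n k _
    refine (sz_foldr (n.bits.drop k)).trans ?_
    have h1 : (n.bits.drop k).length ≤ sz n := by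
      have h2 := length_lt_sz n.bits
      rw [← sz_nat] at h2
      rw [List.length_drop]
      omega
    rw [Polynomial.eval_add, Polynomial.eval_mul, Polynomial.eval_X, Polynomial.eval_C,
      Polynomial.eval_C]
    exact Nat.add_le_add_right (Nat.mul_le_mul_right _ h1) 1

lemma codeN_eq (w : List Bool) : codeN w = valB (w ++ [true]) := by
  induction w with
  | nil => rfl
  | cons b w ih =>
    show Nat.bit b (codeN w) = _
    rw [List.cons_append, valB_cons, ← ih]
    cases b
    · simp [Nat.bit]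
    · simp [Nat.bit]
      omega

lemma poly_codeN : Poly (fun w : List Bool => codeN w) :=
  (NPC.Poly.valBits (NPC.Poly.append NPC.Poly.id (NPC.Poly.const [true]))).congr fun w => (codeN_eq w).symm

lemma codeN_ne (w : List Bool) : codeN w ≠ 0 := by
  induction w with
  | nil => exact one_ne_zero
  | cons b w ih =>
    show Nat.bit b (codeN w) ≠ 0
    intro h
    exact ih (Nat.bit_eq_zero_iff.1 h).1

lemma codeN_bits (w : List Bool) : (codeN w).bits = w ++ [true] := by
  induction w with
  | nil => simp [codeN]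
  | cons b w ih =>
    show (Nat.bit b (codeN w)).bits = _
    rw [Nat.bits_append_bit _ _ (fun h => absurd h (codeN_ne w)), ih]
    rfl

/-- RF-NUM -/
theorem main : S_NUM := ⟨poly_num, poly_codeN, codeN_bits⟩

end Pool.Agent.J6H42.RF
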